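import Mathlib
import Pool.Agent.Helper308.BraidIso

/-!
# Isometric dimension and diameter of braid graphs in type `Λ`

The braid class of a reduced word is coded by the letters in the middle of its braid shadows; the
code is an isometric embedding of the braid graph into the hypercube whose dimension is the number
of shadow centers, and two words of the class differ at all the centers.
-/

namespace Pool.Agent.Results.MP_260d59_co.DimEqDiam

open Pool.V11275.Braid

variable {B : Type*}

/-- The Coxeter matrix is simply laced. -/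
def SimplyLaced (M : CoxeterMatrix B) : Prop :=
  ∀ s t : B, s ≠ t → M s t = 2 ∨ M s t = 3

/-- The Coxeter matrix is triangle-free. -/
def TriangleFree (M : CoxeterMatrix B) : Prop :=
  ¬ ∃ s t u : B, s ≠ t ∧ t ≠ u ∧ s ≠ u ∧ M s t = 3 ∧ M t u = 3 ∧ M s u = 3

/-- A single braid move `sts → tst` with `m(s,t) = 3`. -/
def BraidMove (M : CoxeterMatrix B) (β γ : List B) : Prop :=
  ∃ (x y : List B) (s t : B), M s t = 3 ∧ β = x ++ [s, t, s] ++ y ∧ γ = x ++ [t, s, t] ++ y

/-- The braid class of a word. -/
def braidClass (M : CoxeterMatrix B) (α : List B) : Set (List B) :=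
  {β | Relation.ReflTransGen (BraidMove M) α β}

lemma BraidMove.symm {M : CoxeterMatrix B} {β γ : List B} (h : BraidMove M β γ) :
    BraidMove M γ β := by
  obtain ⟨x, y, s, t, h1, h2, h3⟩ := h
  exact ⟨x, y, t, s, by rw [M.symmetric]; exact h1, h3, h2⟩

lemma BraidMove.ne {M : CoxeterMatrix B} {β γ : List B} (h : BraidMove M β γ) : β ≠ γ := by
  obtain ⟨x, y, s, t, h1, rfl, rfl⟩ := h
  intro h
  have : s = t ∧ t = s ∧ s = t := by simpa using h
  obtain ⟨rfl, _⟩ := this
  rw [M.diagonal] at h1
  omega

/-- The braid graph: vertices are the words of the braid class, two words being adjacent when a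
single braid move turns one into the other. -/
def braidGraph (M : CoxeterMatrix B) (α : List B) : SimpleGraph (braidClass M α) where
  Adj β γ := BraidMove M β.1 γ.1
  symm := ⟨fun _ _ h => h.symm⟩
  loopless := ⟨fun _ h => h.ne rfl⟩

/-- The hypercube `Q_n`: vertices are the 0/1-vectors of length `n`, adjacent when they differ in
exactly one coordinate. -/
def hypercube (n : ℕ) : SimpleGraph (Fin n → Bool) where
  Adj x y := (Finset.univ.filter fun i => x i ≠ y i).card = 1
  symm := ⟨fun x y h => by
    rw [← h]; congr 1; ext i; simp [ne_comm]⟩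
  loopless := ⟨fun x h => by simp at h⟩

/-- `f` is an isometric embedding of the graph `G` into the graph `H`. -/
def IsIsometric {V V' : Type*} (G : SimpleGraph V) (H : SimpleGraph V') (f : V → V') : Prop :=
  ∀ u v, H.dist (f u) (f v) = G.dist u v

/-- The isometric dimension of `G`: the least `n` such that `G` embeds isometrically in `Q_n`. -/
noncomputable def isoDim {V : Type*} (G : SimpleGraph V) : ℕ :=
  sInf {n : ℕ | ∃ f : V → (Fin n → Bool), IsIsometric G (hypercube n) f}

/-! ### Transfer to words indexed by the integers -/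

/-- A finite word as a function on the integers. -/
def F (β : List B) (k : ℤ) : Option B := if 0 ≤ k then β[k.toNat]? else none

/-- The bond relation on letters. -/
def R (M : CoxeterMatrix B) (a b : Option B) : Prop :=
  ∃ s t : B, a = some s ∧ b = some t ∧ M s t = 3

lemma F_nat (β : List B) (n : ℕ) : F β (n : ℤ) = β[n]? := by simp [F]

lemma F_neg (β : List B) {k : ℤ} (hk : k < 0) : F β k = none := by
  unfold F; rw [if_neg (by omega)]

lemma F_injective : Function.Injective (F : List B → ℤ → Option B) := by
  intro β γ h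
  apply List.ext_getElem?
  intro n
  rw [← F_nat, ← F_nat, h]

lemma R_symm (M : CoxeterMatrix B) (a b : Option B) (h : R M a b) : R M b a := by
  obtain ⟨s, t, h1, h2, h3⟩ := h
  exact ⟨t, s, h2, h1, by rw [M.symmetric]; exact h3⟩

lemma R_irrefl (M : CoxeterMatrix B) (a : Option B) : ¬ R M a a := by
  rintro ⟨s, t, h1, h2, h3⟩
  rw [h1] at h2
  have : s = t := by simpa using h2
  subst this
  rw [M.diagonal] at h3
  omega

lemma R_tri {M : CoxeterMatrix B} (hM : TriangleFree M) (a b c : Option B) (h1 : R M a b)
    (h2 : R M b c) (h3 : R M a c) : False := by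
  obtain ⟨s, t, rfl, rfl, h4⟩ := h1
  obtain ⟨t', u, h5, rfl, h6⟩ := h2
  obtain ⟨s', u', h7, h8, h9⟩ := h3
  rw [Option.some_inj] at h5 h7 h8
  subst h5 h7 h8
  have ne : ∀ x y : B, M x y = 3 → x ≠ y := by
    rintro x y h rfl
    rw [M.diagonal] at h
    omega
  exact hM ⟨s, t, u, ne _ _ h4, ne _ _ h6, ne _ _ h9, h4, h6, h9⟩

lemma getElem?_word (x y : List B) (s t u : B) (n : ℕ) :
    (x ++ [s, t, u] ++ y)[n]? =
      if n < x.length then x[n]? else if n = x.length then some s
      else if n = x.length + 1 then some t else if n = x.length + 2 then some u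
      else y[n - x.length - 3]? := by
  rw [List.append_assoc]
  by_cases h : n < x.length
  · rw [if_pos h, List.getElem?_append_left h]
  · rw [if_neg h, List.getElem?_append_right (by omega)]
    obtain ⟨m, rfl⟩ : ∃ m, n = x.length + m := ⟨n - x.length, by omega⟩
    rw [Nat.add_sub_cancel_left]
    match m with
    | 0 => simp
    | 1 => simp
    | 2 => simp
    | m + 3 =>
      rw [if_neg (by omega), if_neg (by omega), if_neg (by omega)]
      simp

lemma move_step {M : CoxeterMatrix B} {β γ : List B} (h : BraidMove M β γ) :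
    ∃ i, Step (R M) (F β) (F γ) i := by
  obtain ⟨x, y, s, t, h1, rfl, rfl⟩ := h
  refine ⟨x.length, ?_⟩
  have e1 : ((x.length : ℤ) + 1) = ((x.length + 1 : ℕ) : ℤ) := by push_cast; ring
  have e2 : ((x.length : ℤ) + 2) = ((x.length + 2 : ℕ) : ℤ) := by push_cast; ring
  unfold Step
  rw [e1, e2]
  simp only [F_nat, getElem?_word]
  refine ⟨⟨s, t, by simp, by simp, h1⟩, by simp, by simp, by simp, by simp, ?_⟩
  intro k h0 h1 h2
  by_cases hk : 0 ≤ k
  · obtain ⟨n, rfl⟩ := Int.eq_ofNat_of_zero_le hk
    have h0' : n ≠ x.length := by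
      intro h; exact h0 (by rw [h])
    have h1' : n ≠ x.length + 1 := by
      intro h; exact h1 (by rw [h])
    have h2' : n ≠ x.length + 2 := by
      intro h; exact h2 (by rw [h])
    rw [F_nat, F_nat, getElem?_word, getElem?_word]
    simp only [if_neg h0', if_neg h1', if_neg h2']
  · rw [F_neg _ (by omega), F_neg _ (by omega)]

lemma split_word {β : List B} {n : ℕ} {s t u : B} (h0 : β[n]? = some s)
    (h1 : β[n + 1]? = some t) (h2 : β[n + 2]? = some u) :
    β = β.take n ++ [s, t, u] ++ β.drop (n + 3) := by
  have hn : n + 2 < β.length := by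
    by_contra h
    rw [List.getElem?_eq_none (by omega)] at h2
    simp at h2
  have hl : (β.take n).length = n := by
    rw [List.length_take]; omega
  apply List.ext_getElem?
  intro k
  rw [getElem?_word, hl]
  by_cases a0 : k < n
  · rw [if_pos a0, List.getElem?_take_of_lt a0]
  · rw [if_neg a0]
    by_cases a1 : k = n
    · rw [if_pos a1, a1, h0]
    · rw [if_neg a1]
      by_cases a2 : k = n + 1
      · rw [if_pos a2, a2, h1]
      · rw [if_neg a2]
        by_cases a3 : k = n + 2
        · rw [if_pos a3, a3, h2]
        · rw [if_neg a3, List.getElem?_drop]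
          congr 1
          omega

lemma step_move {M : CoxeterMatrix B} {β : List B} {g : ℤ → Option B} {i : ℤ}
    (h : Step (R M) (F β) g i) : ∃ γ, BraidMove M β γ ∧ F γ = g := by
  obtain ⟨s, t, a1, a2, a3⟩ := h.1
  have a4 := h.2.1
  have hi : 0 ≤ i := by
    by_contra hi
    rw [F_neg _ (by omega)] at a1
    simp at a1
  obtain ⟨n, rfl⟩ := Int.eq_ofNat_of_zero_le hi
  have e1 : ((n : ℤ) + 1) = ((n + 1 : ℕ) : ℤ) := by push_cast; ring
  have e2 : ((n : ℤ) + 2) = ((n + 2 : ℕ) : ℤ) := by push_cast; ring
  rw [a1, e2] at a4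
  rw [e1] at a2
  rw [F_nat] at a1 a2 a4
  have hβ := split_word a1 a2 a4
  have hn : n + 2 < β.length := by
    by_contra h
    rw [List.getElem?_eq_none (by omega)] at a4
    simp at a4
  have hl : (β.take n).length = n := by
    rw [List.length_take]; omega
  have hmv : BraidMove M β (β.take n ++ [t, s, t] ++ β.drop (n + 3)) :=
    ⟨β.take n, β.drop (n + 3), s, t, a3, hβ, rfl⟩
  refine ⟨_, hmv, ?_⟩
  obtain ⟨j, hj⟩ := move_step hmv
  -- the two steps happen at the same position
  have : Step (R M) (F β) (F (β.take n ++ [t, s, t] ++ β.drop (n + 3))) (n : ℤ) := by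
    refine ⟨h.1, h.2.1, ?_, ?_, ?_, ?_⟩
    · rw [e1, F_nat, F_nat, a2, getElem?_word, hl]; simp
    · rw [e1, F_nat, F_nat, a1, getElem?_word, hl]; simp
    · rw [e1, e2, F_nat, F_nat, a2, getElem?_word, hl]; simp
    · intro k h0 h1 h2
      by_cases hk : 0 ≤ k
      · obtain ⟨m, rfl⟩ := Int.eq_ofNat_of_zero_le hk
        have h0' : m ≠ n := by
          intro h; exact h0 (by rw [h])
        have h1' : m ≠ n + 1 := by
          intro h; exact h1 (by rw [h]; push_cast; ring)
        have h2' : m ≠ n + 2 := by
          intro h; exact h2 (by rw [h]; push_cast; ring)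
        rw [F_nat, F_nat]
        conv_rhs => rw [hβ]
        rw [getElem?_word, getElem?_word, hl]
        simp only [if_neg h0', if_neg h1', if_neg h2']
      · rw [F_neg _ (by omega), F_neg _ (by omega)]
  exact this.unique h

section Reduced

variable {W : Type*} [Group W] {M : CoxeterMatrix B} (cs : CoxeterSystem M W)

lemma move_length {β γ : List B} (h : BraidMove M β γ) : γ.length = β.length := by
  obtain ⟨x, y, s, t, h1, rfl, rfl⟩ := h
  simp

lemma move_prod {β γ : List B} (h : BraidMove M β γ) : cs.wordProd γ = cs.wordProd β := by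
  obtain ⟨x, y, s, t, h1, rfl, rfl⟩ := h
  have key : cs.wordProd [s, t, s] = cs.wordProd [t, s, t] := by
    have h := cs.wordProd_braidWord_eq t s
    have h2 : M t s = 3 := by rw [M.symmetric]; exact h1
    unfold CoxeterSystem.braidWord at h
    rw [h1, h2] at h
    simpa [CoxeterSystem.alternatingWord] using h
  rw [cs.wordProd_append, cs.wordProd_append, cs.wordProd_append, cs.wordProd_append, key]

lemma class_length {α β : List B} (h : β ∈ braidClass M α) : β.length = α.length := by
  induction h with
  | refl => rfl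
  | tail _ h ih => rw [move_length h, ih]

lemma class_prod {α β : List B} (h : β ∈ braidClass M α) : cs.wordProd β = cs.wordProd α := by
  induction h with
  | refl => rfl
  | tail _ h ih => rw [move_prod cs h, ih]

lemma class_reduced {α β : List B} (hα : cs.IsReduced α) (h : β ∈ braidClass M α) :
    cs.IsReduced β := by
  unfold CoxeterSystem.IsReduced at hα ⊢
  rw [class_prod cs h, class_length h, hα]

lemma good_of_reduced {β : List B} (hβ : cs.IsReduced β) : Good (R M) (F β) := by
  intro i hR h2 h3
  obtain ⟨s, t, a1, a2, a3⟩ := hR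
  have hi : 0 ≤ i := by
    by_contra hi
    rw [F_neg _ (by omega)] at a1
    simp at a1
  obtain ⟨n, rfl⟩ := Int.eq_ofNat_of_zero_le hi
  have e1 : ((n : ℤ) + 1) = ((n + 1 : ℕ) : ℤ) := by push_cast; ring
  have e2 : ((n : ℤ) + 2) = ((n + 2 : ℕ) : ℤ) := by push_cast; ring
  have e3 : ((n : ℤ) + 3) = ((n + 3 : ℕ) : ℤ) := by push_cast; ring
  rw [a1, e2] at h2
  rw [a2, e3] at h3
  rw [e1] at a2
  rw [F_nat] at a1 a2 h2 h3
  have hn : n + 3 < β.length := by
    by_contra h
    rw [List.getElem?_eq_none (by omega)] at h3
    simp at h3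
  have h4 : (β.drop n).take 4 = CoxeterSystem.alternatingWord s t 4 := by
    have : CoxeterSystem.alternatingWord s t 4 = [s, t, s, t] := by
      simp [CoxeterSystem.alternatingWord]
    rw [this]
    apply List.ext_getElem?
    intro k
    rw [List.getElem?_take]
    match k with
    | 0 => simp [a1]
    | 1 => simp [a2]
    | 2 => simp [h2]
    | 3 => simp [h3]
    | k + 4 => simp
  have h5 := (hβ.drop n).take 4
  rw [h4] at h5
  exact cs.not_isReduced_alternatingWord s t (by rw [a3]; norm_num) (by rw [a3]; norm_num) h5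

end Reduced

lemma path_of_class {M : CoxeterMatrix B} {α β : List B} (h : β ∈ braidClass M α) :
    ∃ n, PathLen (R M) (F α) (F β) n := by
  unfold braidClass at h
  rw [Set.mem_ofPred_eq] at h
  induction h using Relation.ReflTransGen.head_induction_on with
  | refl => exact ⟨0, PathLen.refl _⟩
  | head hm _ ih =>
    obtain ⟨n, hn⟩ := ih
    obtain ⟨i, hi⟩ := move_step hm
    exact ⟨n + 1, PathLen.step hi hn⟩

lemma path_of_walk {M : CoxeterMatrix B} {α : List B} {a b : braidClass M α}
    (w : (braidGraph M α).Walk a b) : PathLen (R M) (F a.1) (F b.1) w.length := by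
  induction w with
  | nil => exact PathLen.refl _
  | cons h p ih =>
    obtain ⟨i, hi⟩ := move_step h
    rw [SimpleGraph.Walk.length_cons]
    exact PathLen.step hi ih

lemma walk_of_path {M : CoxeterMatrix B} {α : List B} {f g : ℤ → Option B} {n : ℕ}
    (h : PathLen (R M) f g n) : ∀ a b : braidClass M α, F a.1 = f → F b.1 = g →
    ∃ w : (braidGraph M α).Walk a b, w.length = n := by
  induction h with
  | refl f =>
    intro a b h1 h2
    have : a = b := Subtype.ext (F_injective (h1.trans h2.symm))
    subst this
    exact ⟨SimpleGraph.Walk.nil, rfl⟩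
  | @step f g h i n hs _ ih =>
    intro a b h1 h2
    subst h1
    obtain ⟨γ, hγ, hγ'⟩ := step_move hs
    have hc : γ ∈ braidClass M α := by
      have := a.2
      unfold braidClass at this ⊢
      rw [Set.mem_ofPred_eq] at this ⊢
      exact this.tail hγ
    obtain ⟨w, hw⟩ := ih ⟨γ, hc⟩ b hγ' h2
    have hadj : (braidGraph M α).Adj a ⟨γ, hc⟩ := hγ
    refine ⟨SimpleGraph.Walk.cons hadj w, ?_⟩
    rw [SimpleGraph.Walk.length_cons, hw]

/-- distances in the hypercube -/
lemma hypercube_walk (n : ℕ) : ∀ (k : ℕ) (x y : Fin n → Bool),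
    (Finset.univ.filter fun i => x i ≠ y i).card = k →
    ∃ w : (hypercube n).Walk x y, w.length = k := by
  intro k
  induction k with
  | zero =>
    intro x y h
    rw [Finset.card_eq_zero, Finset.filter_eq_empty_iff] at h
    have : x = y := funext fun i => by
      have := h (Finset.mem_univ i)
      exact not_not.mp this
    subst this
    exact ⟨SimpleGraph.Walk.nil, rfl⟩
  | succ k ih =>
    intro x y h
    have hne : (Finset.univ.filter fun i => x i ≠ y i).Nonempty := by
      rw [← Finset.card_pos]; omega
    obtain ⟨i, hi⟩ := hne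
    rw [Finset.mem_filter] at hi
    set z := Function.update x i (y i) with hz
    have e1 : (Finset.univ.filter fun j => x j ≠ z j) = {i} := by
      ext j
      rw [Finset.mem_filter, Finset.mem_singleton]
      by_cases hj : j = i
      · subst hj
        rw [hz, Function.update_self]
        simp [hi.2]
      · rw [hz, Function.update_of_ne hj]
        simp [hj]
    have e2 : (Finset.univ.filter fun j => x j ≠ y j) =
        insert i (Finset.univ.filter fun j => z j ≠ y j) := by
      ext j
      rw [Finset.mem_insert, Finset.mem_filter, Finset.mem_filter]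
      by_cases hj : j = i
      · subst hj
        simp [hi.2]
      · rw [hz, Function.update_of_ne hj]
        simp [hj]
    have e3 : i ∉ (Finset.univ.filter fun j => z j ≠ y j) := by
      rw [Finset.mem_filter, hz, Function.update_self]
      simp
    rw [e2, Finset.card_insert_of_notMem e3] at h
    obtain ⟨w, hw⟩ := ih z y (by omega)
    have hadj : (hypercube n).Adj x z := by
      show (Finset.univ.filter fun j => x j ≠ z j).card = 1
      rw [e1, Finset.card_singleton]
    exact ⟨SimpleGraph.Walk.cons hadj w, by rw [SimpleGraph.Walk.length_cons, hw]⟩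

lemma hypercube_le {n : ℕ} {x y : Fin n → Bool} (w : (hypercube n).Walk x y) :
    (Finset.univ.filter fun i => x i ≠ y i).card ≤ w.length := by
  induction w with
  | nil => simp
  | @cons x z y h p ih =>
    rw [SimpleGraph.Walk.length_cons]
    have h1 : (Finset.univ.filter fun i => x i ≠ z i).card = 1 := h
    have sub : (Finset.univ.filter fun i => x i ≠ y i) ⊆
        (Finset.univ.filter fun i => x i ≠ z i) ∪ (Finset.univ.filter fun i => z i ≠ y i) := by
      intro i hi
      rw [Finset.mem_union, Finset.mem_filter, Finset.mem_filter]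
      rw [Finset.mem_filter] at hi
      by_cases hxz : x i = z i
      · right; exact ⟨Finset.mem_univ _, by rw [← hxz]; exact hi.2⟩
      · left; exact ⟨Finset.mem_univ _, hxz⟩
    have := Finset.card_le_card sub
    have h2 := Finset.card_union_le (Finset.univ.filter fun i => x i ≠ z i)
      (Finset.univ.filter fun i => z i ≠ y i)
    omega

lemma hypercube_dist {n : ℕ} (x y : Fin n → Bool) :
    (hypercube n).dist x y = (Finset.univ.filter fun i => x i ≠ y i).card := by
  obtain ⟨w, hw⟩ := hypercube_walk n _ x y rfl
  apply le_antisymm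
  · rw [← hw]; exact SimpleGraph.dist_le w
  · obtain ⟨p, hp⟩ := (w.reachable).exists_walk_length_eq_dist
    rw [← hp]; exact hypercube_le p

/-- For every Coxeter system of type `Λ` and every reduced word `α`, the braid graph is a finite
connected graph, it embeds isometrically in a hypercube, the least dimension of such a hypercube is
its diameter, that is, the isometric dimension equals the diameter. -/
theorem result {W : Type*} [Group W] (M : CoxeterMatrix B) (cs : CoxeterSystem M W)
    (_hsl : SimplyLaced M) (htf : TriangleFree M) (α : List B) (hα : cs.IsReduced α) :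
    (braidClass M α).Finite ∧ (braidGraph M α).Connected ∧
      IsLeast {n : ℕ | ∃ f : braidClass M α → (Fin n → Bool),
        IsIsometric (braidGraph M α) (hypercube n) f} (braidGraph M α).diam ∧
      isoDim (braidGraph M α) = (braidGraph M α).diam := by
  classical
  obtain ⟨C, code, hC1, hC2, hC3⟩ := Pool.Agent.Helper308.BraidIso.main2 (R_symm M) (R_irrefl M)
    (R_tri htf)
    (F '' braidClass M α) (F α) ⟨α, Relation.ReflTransGen.refl, rfl⟩
    (by
      rintro _ ⟨β, hβ, rfl⟩ g i hs
      obtain ⟨γ, hγ, hγ'⟩ := step_move hs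
      refine ⟨γ, ?_, hγ'⟩
      unfold braidClass at hβ ⊢
      rw [Set.mem_ofPred_eq] at hβ ⊢
      exact hβ.tail hγ)
    (by
      rintro _ ⟨β, hβ, rfl⟩
      exact path_of_class hβ)
    (by
      rintro _ ⟨β, hβ, rfl⟩
      exact good_of_reduced cs (class_reduced cs hα hβ))
    (Finset.Ico 0 (α.length : ℤ))
    (by
      rintro _ ⟨β, hβ, rfl⟩ i ⟨s, t, a1, _, _⟩
      have hi : 0 ≤ i := by
        by_contra hi
        rw [F_neg _ (by omega)] at a1
        simp at a1
      obtain ⟨n, rfl⟩ := Int.eq_ofNat_of_zero_le hi
      rw [F_nat] at a1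
      have : n < β.length := by
        by_contra h
        rw [List.getElem?_eq_none (by omega)] at a1
        simp at a1
      rw [class_length hβ] at this
      rw [Finset.mem_Ico]
      exact ⟨hi, by exact_mod_cast this⟩)
  have hNe : Nonempty (braidClass M α) := ⟨⟨α, Relation.ReflTransGen.refl⟩⟩
  have hconn : (braidGraph M α).Connected := by
    refine ⟨?_⟩
    intro a b
    have hn := hC1 (F a.1) ⟨a.1, a.2, rfl⟩ (F b.1) ⟨b.1, b.2, rfl⟩
    obtain ⟨w, _⟩ := walk_of_path hn a b rfl rfl
    exact ⟨w⟩
  -- distances
  have hdist : ∀ a b : braidClass M α, (braidGraph M α).dist a b =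
      (C.filter fun c => code (F a.1) c ≠ code (F b.1) c).card := by
    intro a b
    apply le_antisymm
    · have hn := hC1 (F a.1) ⟨a.1, a.2, rfl⟩ (F b.1) ⟨b.1, b.2, rfl⟩
      obtain ⟨w, hw⟩ := walk_of_path hn a b rfl rfl
      rw [← hw]; exact SimpleGraph.dist_le w
    · obtain ⟨w, hw⟩ := (hconn a b).exists_walk_length_eq_dist
      rw [← hw]
      exact hC2 (F a.1) ⟨a.1, a.2, rfl⟩ (F b.1) ⟨b.1, b.2, rfl⟩ _ (path_of_walk w)
  -- the isometric embedding
  let e : Fin C.card ≃ C := C.equivFin.symm
  let φ : braidClass M α → (Fin C.card → Bool) := fun a i => code (F a.1) (e i).1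
  have hφ : IsIsometric (braidGraph M α) (hypercube C.card) φ := by
    intro a b
    rw [hypercube_dist, hdist]
    apply Finset.card_bij (fun i _ => (e i).1)
    · intro i hi
      rw [Finset.mem_filter] at hi ⊢
      exact ⟨(e i).2, hi.2⟩
    · intro i _ j _ hij
      exact e.injective (Subtype.ext hij)
    · intro c hc
      rw [Finset.mem_filter] at hc
      refine ⟨e.symm ⟨c, hc.1⟩, ?_, ?_⟩
      · rw [Finset.mem_filter]
        refine ⟨Finset.mem_univ _, ?_⟩
        show code (F a.1) (e (e.symm ⟨c, hc.1⟩)).1 ≠ code (F b.1) (e (e.symm ⟨c, hc.1⟩)).1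
        rw [Equiv.apply_symm_apply]
        exact hc.2
      · rw [Equiv.apply_symm_apply]
  have hfin : (braidClass M α).Finite := by
    have hinj : Function.Injective φ := by
      intro a b hab
      have h1 := hφ a b
      rw [hab, SimpleGraph.dist_self] at h1
      exact (hconn.dist_eq_zero_iff).mp h1.symm
    have : Finite (braidClass M α) := Finite.of_injective φ hinj
    exact Set.toFinite _
  have hFin : Finite (braidClass M α) := hfin
  have hed : (braidGraph M α).ediam ≠ ⊤ := by
    exact (SimpleGraph.connected_iff_ediam_ne_top).mp hconn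
  obtain ⟨_, ⟨β, hβ, rfl⟩, _, ⟨γ, hγ, rfl⟩, hanti⟩ := hC3
  have hdC : (braidGraph M α).dist ⟨β, hβ⟩ ⟨γ, hγ⟩ = C.card := by
    rw [hdist, Finset.filter_true_of_mem hanti]
  have hle : ∀ n, (∃ f : braidClass M α → (Fin n → Bool),
      IsIsometric (braidGraph M α) (hypercube n) f) → C.card ≤ n := by
    rintro n ⟨f, hf⟩
    rw [← hdC, ← hf, hypercube_dist]
    calc _ ≤ (Finset.univ : Finset (Fin n)).card := Finset.card_filter_le _ _
      _ = n := by simp
  have hdiam : (braidGraph M α).diam = C.card := by
    apply le_antisymm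
    · obtain ⟨a, b, hab⟩ := SimpleGraph.exists_dist_eq_diam (G := braidGraph M α)
      rw [← hab, hdist]
      exact Finset.card_filter_le _ _
    · rw [← hdC]; exact SimpleGraph.dist_le_diam hed
  have hleast : IsLeast {n : ℕ | ∃ f : braidClass M α → (Fin n → Bool),
      IsIsometric (braidGraph M α) (hypercube n) f} (braidGraph M α).diam := by
    rw [hdiam]
    exact ⟨⟨φ, hφ⟩, fun n hn => hle n hn⟩
  exact ⟨hfin, hconn, hleast, hleast.csInf_eq⟩

end Pool.Agent.Results.MP_260d59_co.DimEqDiam
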